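import Pool.Agent.Work.MP_cf02e9_co.Cyclic

/-!
# Optimality of the cyclic-shift strategy in permutation Wordle
-/

namespace Pool.Agent.Results.MP_cf02e9_co.Main

open Pool.Agent.Work.MP_cf02e9_co

/-- For every `n ≥ 1`, every strategy `S` and every `r`, the probability that the cyclic-shift
strategy `B` wins within its first `r` guesses is at least the probability that `S` does. -/
theorem result : ∀ n : ℕ, 1 ≤ n → ∀ (S : Strategy n) (r : ℕ),
    winProb S r ≤ winProb (stratB n) r := by
  intro n hn S r
  unfold winProb
  have h1 := optimal hn S r
  apply div_le_div_of_nonneg_right _ (by positivity)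
  exact_mod_cast h1

end Pool.Agent.Results.MP_cf02e9_co.Main
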